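import Pool.Agent.H342SG.Cons

/-!
# From omega-bounded groups of large weight to thin families of sets (seat helper342)
-/

set_option autoImplicit false
set_option linter.style.haveILetI false

namespace Pool.Agent.H342SG

open Cardinal Topology Set Filter
open scoped Pointwise

/-- a countable family of subsets of the circle which separates the points -/
theorem exists_sep_circle :
    ∃ B : ℕ → Set Circle, ∀ z w : Circle, (∀ n, z ∈ B n ↔ w ∈ B n) → z = w := by
  obtain ⟨b, hbc, -, hb⟩ := TopologicalSpace.exists_countable_basis Circle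
  have hne : b.Nonempty := by
    have h1 : (1 : Circle) ∈ ⋃₀ b := by
      rw [hb.sUnion_eq]
      trivial
    obtain ⟨u, hu, -⟩ := h1
    exact ⟨u, hu⟩
  obtain ⟨B, hB⟩ := hbc.exists_eq_range hne
  refine ⟨B, fun z w h => ?_⟩
  by_contra hzw
  obtain ⟨u, v, hu, hv, hzu, hwv, huv⟩ := t2_separation hzw
  obtain ⟨o, ho, hzo, hou⟩ := hb.exists_subset_of_mem_open hzu hu
  rw [hB] at ho
  obtain ⟨n, rfl⟩ := ho
  have h1 : w ∈ B n := (h n).1 hzo
  exact (disjoint_left.1 huv (hou h1)) hwv

section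
variable {A : Type} [CommGroup A]

/-- the subgroup generated by a sequence -/
noncomputable def seqSpan (x : ℕ → A) : Subgroup A where
  carrier := Set.range (fun h : ℕ →₀ ℤ => h.prod (fun i n => x i ^ n))
  mul_mem' := by
    rintro _ _ ⟨h, rfl⟩ ⟨k, rfl⟩
    exact ⟨h + k, Finsupp.prod_add_index' (fun i => zpow_zero _) (fun i m n => zpow_add _ _ _)⟩
  one_mem' := ⟨0, Finsupp.prod_zero_index⟩
  inv_mem' := by
    rintro _ ⟨h, rfl⟩
    refine ⟨-h, ?_⟩
    show (-h).prod (fun i n => x i ^ n) = (h.prod (fun i n => x i ^ n))⁻¹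
    rw [Finsupp.prod_neg_index (fun i => zpow_zero _)]
    simp only [zpow_neg]
    exact Finset.prod_inv_distrib _

theorem seqSpan_countable (x : ℕ → A) : (seqSpan x : Set A).Countable :=
  Set.countable_range _

theorem mem_seqSpan (x : ℕ → A) (n : ℕ) : x n ∈ seqSpan x := by
  refine ⟨Finsupp.single n 1, ?_⟩
  show (Finsupp.single n (1 : ℤ)).prod (fun i n => x i ^ n) = x n
  rw [Finsupp.prod_single_index (zpow_zero _), zpow_one]

variable [TopologicalSpace A] [IsTopologicalGroup A]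

/-- every countable set is contained in a compact subgroup -/
theorem exists_compact_subgroup (hA : OmegaBounded A) (a : Set A) (ha : a.Countable) :
    ∃ K : Subgroup A, a ⊆ K ∧ CompactSpace K := by
  obtain ⟨x, hx⟩ := (ha.union (countable_singleton (1 : A))).exists_eq_range ⟨1, Or.inr rfl⟩
  refine ⟨(seqSpan x).topologicalClosure, ?_, ?_⟩
  · intro y hy
    have h1 : y ∈ Set.range x := by
      rw [← hx]
      exact Or.inl hy
    obtain ⟨n, rfl⟩ := h1
    exact subset_closure (mem_seqSpan x n)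
  · exact isCompact_iff_compactSpace.1 (hA _ (seqSpan_countable x))

/-- an omega-bounded group of small size with many characters yields a thin family -/
theorem thin_of_group [T2Space A] (hA : OmegaBounded A) {κ : Cardinal.{0}} (hAκ : #A = κ)
    (hκ : 𝔠 ≤ κ) (hΓ : Order.succ κ ≤ #(A →ₜ* Circle)) : Thin κ := by
  classical
  obtain ⟨B, hB⟩ := exists_sep_circle
  obtain ⟨Γ, hΓ⟩ := le_mk_iff_exists_set.1 hΓ
  let φ : (A →ₜ* Circle) → Set (A × ℕ) := fun χ => {p | χ p.1 ∈ B p.2}
  have hφ : Function.Injective φ := by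
    intro χ ψ h
    apply ContinuousMonoidHom.ext
    intro a
    refine hB _ _ fun n => ?_
    have h1 := Set.ext_iff.1 h (a, n)
    exact h1
  refine ⟨A × ℕ, φ '' Γ, ?_, ?_, ?_⟩
  · rw [mk_prod, lift_id, lift_id, hAκ, mk_nat]
    exact mul_aleph0_eq (aleph0_le_continuum.trans hκ)
  · rw [mk_image_eq hφ, hΓ]
  · intro a ha
    obtain ⟨K, haK, hK⟩ := exists_compact_subgroup hA (Prod.fst '' a) (ha.image _)
    have h1 : #(traces (φ '' Γ) a) ≤ #(K →ₜ* Circle) := by
      let g : (K →ₜ* Circle) → Set (A × ℕ) := fun ψ =>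
        {p | p ∈ a ∧ ∃ h : p.1 ∈ K, ψ ⟨p.1, h⟩ ∈ B p.2}
      let r : (A →ₜ* Circle) → (K →ₜ* Circle) := fun χ =>
        ⟨χ.toMonoidHom.comp K.subtype, χ.continuous_toFun.comp continuous_subtype_val⟩
      have h2 : traces (φ '' Γ) a ⊆ Set.range g := by
        rintro _ ⟨_, ⟨χ, hχ, rfl⟩, rfl⟩
        refine ⟨r χ, ?_⟩
        ext p
        constructor
        · rintro ⟨hpa, hp, hpB⟩
          exact ⟨hpB, hpa⟩
        · rintro ⟨hpB, hpa⟩
          exact ⟨hpa, haK ⟨p, hpa, rfl⟩, hpB⟩
      exact (mk_le_mk_of_subset h2).trans mk_range_le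
    rcases le_or_gt (#(K →ₜ* Circle)) ℵ₀ with h3 | h3
    · calc (2 : Cardinal.{0}) ^ #(traces (φ '' Γ) a) ≤ 2 ^ ℵ₀ :=
            power_le_power_left two_ne_zero (h1.trans h3)
        _ = 𝔠 := two_power_aleph0
        _ ≤ κ := hκ
    · calc (2 : Cardinal.{0}) ^ #(traces (φ '' Γ) a) ≤ 2 ^ #(K →ₜ* Circle) :=
            power_le_power_left two_ne_zero h1
        _ ≤ #K := two_power_le h3
        _ ≤ #A := mk_subtype_le _
        _ = κ := hAκ

omit [IsTopologicalGroup A] in
/-- an omega-bounded group of small size with many characters yields a bad weight -/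
theorem bad_of_group [T2Space A] (hA : OmegaBounded A) {κ : Cardinal.{0}} (hAκ : #A = κ)
    (hκ : ℵ₀ ≤ κ) (hΓ : Order.succ κ ≤ #(A →ₜ* Circle)) : Bad (Order.succ κ) := by
  classical
  obtain ⟨Γ, hΓ⟩ := le_mk_iff_exists_set.1 hΓ
  let c : Γ → (A →ₜ* Circle) := fun χ => χ
  let g : A → (ev c).range := fun a => ⟨ev c a, a, rfl⟩
  have hg : Continuous g := (ev_continuous c).subtype_mk _
  have hgs : Function.Surjective g := by
    rintro ⟨_, a, rfl⟩
    exact ⟨a, rfl⟩
  refine bad_of_coords (ev c).range (hA.map hg hgs) hΓ hκ ?_ ?_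
  · intro χ ψ hne
    by_contra hcon
    push Not at hcon
    apply hne
    apply Subtype.ext
    apply ContinuousMonoidHom.ext
    intro a
    exact hcon (ev c a) ⟨a, rfl⟩
  · rw [← hAκ]
    exact mk_le_of_surjective hgs

end

theorem two_power_continuum_power : ((2 : Cardinal.{0}) ^ (𝔠 : Cardinal.{0})) ^ ℵ₀ = 2 ^ (𝔠 : Cardinal.{0}) := by
  rw [← power_mul, continuum_mul_aleph0]

theorem thin_two_power_continuum : Thin (2 ^ (𝔠 : Cardinal.{0})) := by
  have h1 : Order.succ ((2 : Cardinal.{0}) ^ (𝔠 : Cardinal.{0})) ≤ #(Set (Set ℝ)) := by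
    rw [mk_set, mk_set, mk_real]
    exact Order.succ_le_of_lt (cantor _)
  obtain ⟨F, hF⟩ := le_mk_iff_exists_set.1 h1
  refine ⟨Set ℝ, F, ?_, hF, ?_⟩
  · rw [mk_set, mk_real]
  · intro a ha
    have h2 : #(traces F a) ≤ 𝔠 := by
      have h3 : traces F a ⊆ 𝒫 a := by
        rintro _ ⟨f, -, rfl⟩
        exact inter_subset_right
      calc #(traces F a) ≤ #(𝒫 a) := mk_le_mk_of_subset h3
        _ = 2 ^ #a := mk_powerset a
        _ ≤ 2 ^ ℵ₀ := power_le_power_left two_ne_zero (le_aleph0_iff_set_countable.2 ha)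
        _ = 𝔠 := two_power_aleph0
    exact power_le_power_left two_ne_zero h2

theorem bad_of_thin {κ : Cardinal.{0}} (hκ : ℵ₀ ≤ κ) (hκ2 : κ ^ ℵ₀ = κ) (h : Thin κ) :
    Bad (Order.succ κ) := by
  obtain ⟨S, F, hS, hF, hT⟩ := h
  exact bad_of_coords (thinGroup F) (thinGroup_omegaBounded F) hF hκ (thinGroup_sep F)
    (mk_thinGroup_le F hS hκ2 hκ hT)

theorem sigma_le {κ : Cardinal.{0}} (h : Bad κ) : sigma ≤ κ := csInf_le' h

theorem bad_sigma : Bad sigma := by
  have h : {κ | Bad κ}.Nonempty := by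
    refine ⟨_, bad_of_thin (κ := 2 ^ (𝔠 : Cardinal.{0})) ?_ two_power_continuum_power
      thin_two_power_continuum⟩
    exact aleph0_le_continuum.trans (cantor _).le
  exact csInf_mem h

/-- the least bad weight is the successor of a cardinal which carries a thin family -/
theorem sigma_eq : ∃ κ : Cardinal.{0}, 𝔠 ≤ κ ∧ Thin κ ∧ sigma = Order.succ κ := by
  obtain ⟨G, iG, tG, hG1, hG2, hG3, hG4, hG5⟩ := bad_sigma
  unfold ProjWeightSmall at hG5
  push Not at hG5
  obtain ⟨H, iH, tH, hH1, hH2, f, hf, hfs, hw⟩ := hG5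
  letI : CommGroup H :=
    { iH with
      mul_comm := by
        intro a b
        obtain ⟨x, rfl⟩ := hfs a
        obtain ⟨y, rfl⟩ := hfs b
        rw [← map_mul, ← map_mul, mul_comm] }
  haveI : IsTopologicalGroup H := hH1
  have hH : OmegaBounded H := hG3.map hf hfs
  have hinf : Infinite H := by
    by_contra hfin
    rw [not_infinite_iff_finite] at hfin
    exact absurd (weight_le_of_finite H) (not_le.2 hw)
  have hc : 𝔠 ≤ #H := continuum_le hH
  have h0 : ℵ₀ ≤ #H := aleph0_le_mk H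
  have h1 : Order.succ #H ≤ #(H →ₜ* Circle) := by
    have h2 := (Order.succ_le_of_lt hw).trans (weight_le_chars hH)
    rcases le_max_iff.1 h2 with h | h
    · exact h
    · exact absurd (h0.trans_lt (Order.lt_succ _)) (not_lt.2 h)
  refine ⟨#H, hc, thin_of_group hH rfl hc h1, le_antisymm (sigma_le (bad_of_group hH rfl h0 h1)) ?_⟩
  have h3 : Order.succ #H ≤ max sigma ℵ₀ := by
    rw [← hG4]
    exact (h1.trans (mk_chars_mono f hf hfs)).trans (mk_chars_le_weight hG3)
  rcases le_max_iff.1 h3 with h | h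
  · exact h
  · exact absurd (h0.trans_lt (Order.lt_succ _)) (not_lt.2 h)

end Pool.Agent.H342SG
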