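import Mathlib

/-!
# Weights and omega-bounded groups: definitions and elementary facts (seat helper342)
-/

set_option autoImplicit false

namespace Pool.Agent.H342SG

open Cardinal Topology Set Filter

/-- the closure of every countable subset is compact -/
def OmegaBounded (X : Type) [TopologicalSpace X] : Prop :=
  ∀ S : Set X, S.Countable → IsCompact (closure S)

/-- the weight of a space: the least cardinality of a base -/
noncomputable def weight (X : Type) [TopologicalSpace X] : Cardinal.{0} :=
  sInf {κ | ∃ B : Set (Set X), TopologicalSpace.IsTopologicalBasis B ∧ #B = κ}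

/-- every continuous homomorphic image `H` has weight at most `|H|` -/
def ProjWeightSmall (G : Type) [Group G] [TopologicalSpace G] : Prop :=
  ∀ (H : Type) [Group H] [TopologicalSpace H] [IsTopologicalGroup H] [T2Space H] (f : G →* H),
    Continuous f → Function.Surjective f → weight H ≤ #H

/-- some omega-bounded abelian Hausdorff topological group of weight `κ` is not projectively
weight-small -/
def Bad (κ : Cardinal.{0}) : Prop :=
  ∃ (G : Type) (_ : CommGroup G) (_ : TopologicalSpace G), IsTopologicalGroup G ∧ T2Space G ∧
    OmegaBounded G ∧ weight G = κ ∧ ¬ ProjWeightSmall G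

/-- the least weight of an omega-bounded abelian Hausdorff topological group which is not
projectively weight-small -/
noncomputable def sigma : Cardinal.{0} := sInf {κ | Bad κ}

/-! ### Weight -/

theorem weight_le {X : Type} [TopologicalSpace X] {B : Set (Set X)}
    (hB : TopologicalSpace.IsTopologicalBasis B) : weight X ≤ #B :=
  csInf_le' ⟨B, hB, rfl⟩

theorem exists_basis (X : Type) [TopologicalSpace X] :
    ∃ B : Set (Set X), TopologicalSpace.IsTopologicalBasis B ∧ #B = weight X := by
  have h : {κ : Cardinal.{0} | ∃ B : Set (Set X), TopologicalSpace.IsTopologicalBasis B ∧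
      #B = κ}.Nonempty := ⟨_, _, TopologicalSpace.isTopologicalBasis_opens, rfl⟩
  exact csInf_mem h

theorem weight_le_mk_of_discrete (X : Type) [TopologicalSpace X] [DiscreteTopology X] :
    weight X ≤ #X := by
  refine (weight_le (isTopologicalBasis_singletons X)).trans ?_
  have h : {s : Set X | ∃ x : X, (s : Set X) = {x}} = Set.range (fun x : X => ({x} : Set X)) := by
    ext s
    constructor
    · rintro ⟨x, hx⟩
      exact ⟨x, hx.symm⟩
    · rintro ⟨x, hx⟩
      exact ⟨x, hx.symm⟩
  rw [h]
  exact mk_range_le

theorem weight_le_of_generateFrom {X : Type} [t : TopologicalSpace X] {s : Set (Set X)}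
    (hs : t = TopologicalSpace.generateFrom s) : weight X ≤ max #s ℵ₀ := by
  classical
  refine (weight_le (TopologicalSpace.isTopologicalBasis_of_subbasis hs)).trans ?_
  have h1 : #((fun f : Set (Set X) => ⋂₀ f) '' {f : Set (Set X) | f.Finite ∧ f ⊆ s}) ≤
      #(Finset s) := by
    have h2 : ((fun f : Set (Set X) => ⋂₀ f) '' {f : Set (Set X) | f.Finite ∧ f ⊆ s}) ⊆
        Set.range (fun t : Finset s => ⋂₀ (Subtype.val '' (t : Set s))) := by
      rintro _ ⟨f, ⟨hf1, hf2⟩, rfl⟩
      have hfin : ((fun x : s => (x : Set X)) ⁻¹' f).Finite :=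
        hf1.preimage Subtype.val_injective.injOn
      refine ⟨hfin.toFinset, ?_⟩
      simp only [Set.Finite.coe_toFinset]
      congr 1
      ext u
      constructor
      · rintro ⟨x, hx, rfl⟩
        exact hx
      · intro hu
        exact ⟨⟨u, hf2 hu⟩, hu, rfl⟩
    exact (mk_le_mk_of_subset h2).trans mk_range_le
  refine h1.trans ?_
  rcases finite_or_infinite s with h | h
  · exact (mk_lt_aleph0 (α := Finset s)).le.trans (le_max_right _ _)
  · rw [mk_finset_of_infinite]
    exact le_max_left _ _

/-- a space which embeds into a power of a second countable space -/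
theorem weight_le_of_inducing {X I Y : Type} [tX : TopologicalSpace X] [tY : TopologicalSpace Y]
    [SecondCountableTopology Y] (f : X → I → Y) (hf : IsInducing f) : weight X ≤ max #I ℵ₀ := by
  obtain ⟨b, hbc, -, hb⟩ := TopologicalSpace.exists_countable_basis Y
  have h1 : tX = TopologicalSpace.generateFrom (⋃ i : I, Set.image (fun u : Set Y => (fun x => f x i) ⁻¹' u) b) := by
    rw [hf.eq_induced]
    rw [show (Pi.topologicalSpace : TopologicalSpace (I → Y)) =
      ⨅ i, TopologicalSpace.induced (fun g : I → Y => g i) tY from rfl]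
    rw [induced_iInf, generateFrom_iUnion]
    refine iInf_congr fun i => ?_
    rw [induced_compose, ← induced_generateFrom_eq, ← hb.eq_generateFrom]
    rfl
  refine (weight_le_of_generateFrom h1).trans ?_
  refine max_le ?_ (le_max_right _ _)
  refine (mk_iUnion_le _).trans ?_
  have h2 : ∀ i : I, #(Set.image (fun u : Set Y => (fun x => f x i) ⁻¹' u) b) ≤ ℵ₀ := fun i =>
    mk_image_le.trans (mk_le_aleph0_iff.2 hbc.to_subtype)
  have h3 : (⨆ i : I, #(Set.image (fun u : Set Y => (fun x => f x i) ⁻¹' u) b)) ≤ ℵ₀ := ciSup_le' h2
  calc #I * (⨆ i : I, #(Set.image (fun u : Set Y => (fun x => f x i) ⁻¹' u) b)) ≤ #I * ℵ₀ :=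
        mul_le_mul_right h3 _
    _ ≤ max #I ℵ₀ := by
        refine (mul_le_max _ _).trans ?_
        simp

end Pool.Agent.H342SG
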