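import Pool.Agent.H342SG.Base
import Pool.Agent.Helper69.Dual
import Pool.Agent.Helper472.Lat_Chars

/-!
# Characters of omega-bounded abelian groups (seat helper342)
-/

set_option autoImplicit false
set_option linter.style.haveILetI false

namespace Pool.Agent.H342SG

open Cardinal Topology Set Filter
open scoped Pointwise

section
variable {A : Type} [CommGroup A] [TopologicalSpace A] [IsTopologicalGroup A]

/-- an omega-bounded group is precompact -/
theorem precompact (hA : OmegaBounded A) {U : Set A} (hU : U ∈ 𝓝 (1 : A)) :
    ∃ F : Finset A, ∀ x : A, ∃ g ∈ F, x ∈ g • U := by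
  classical
  by_contra hcon
  push Not at hcon
  obtain ⟨x, hx⟩ := exists_seq_of_forall_finset_exists (fun _ : A => True)
    (fun g y => y ∉ g • U) (fun s _ => by
      obtain ⟨y, hy⟩ := hcon s
      exact ⟨y, trivial, fun g hg => hy g hg⟩)
  have hc := hA (Set.range x) (Set.countable_range x)
  obtain ⟨V, hV, hVU⟩ := exists_nhds_split_inv (s := U) hU
  obtain ⟨y, -, hy⟩ := hc.exists_mapClusterPt (f := atTop) (u := x) (by
    rw [le_principal_iff, mem_map]
    exact Filter.Eventually.of_forall fun n => subset_closure (mem_range_self n))
  have hW : (fun z => z / y) ⁻¹' V ∈ 𝓝 y := by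
    have h1 : Tendsto (fun z : A => z / y) (𝓝 y) (𝓝 (y / y)) :=
      (continuous_id.div_const y).tendsto y
    rw [div_self'] at h1
    exact h1 hV
  have hf := hy.frequently hW
  obtain ⟨m, -, hm⟩ := (frequently_atTop.1 hf) 0
  obtain ⟨n, hmn, hn⟩ := (frequently_atTop.1 hf) (m + 1)
  have h2 := hx.2 m n (by omega)
  apply h2
  refine ⟨x n / x m, ?_, ?_⟩
  · have h3 := hVU (x n / y) hn (x m / y) hm
    rwa [div_div_div_cancel_right] at h3
  · show x m • (x n / x m) = x n
    rw [smul_eq_mul, mul_div_cancel]

/-- evaluation on a family of characters -/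
noncomputable def ev {I : Type} (c : I → (A →ₜ* Circle)) : A →* (I → Circle) where
  toFun a i := c i a
  map_one' := by
    funext i
    exact map_one (c i)
  map_mul' a b := by
    funext i
    exact map_mul (c i) a b

omit [IsTopologicalGroup A] in
theorem ev_continuous {I : Type} (c : I → (A →ₜ* Circle)) : Continuous (ev c) :=
  continuous_pi fun i => (c i).continuous_toFun

/-- the topology of an omega-bounded abelian group is induced by the continuous characters -/
theorem ev_inducing_all [T2Space A] (hA : OmegaBounded A) :
    IsInducing (ev (fun χ : (A →ₜ* Circle) => χ)) := by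
  classical
  letI : UniformSpace (Additive A) := IsTopologicalAddGroup.rightUniformSpace (Additive A)
  haveI : IsUniformAddGroup (Additive A) := isUniformAddGroup_of_addCommGroup
  haveI : T2Space (Additive A) := inferInstanceAs (T2Space A)
  have htb : TotallyBounded (Set.univ : Set (Additive A)) := by
    rw [totallyBounded_iff_subset_finite_iUnion_nhds_zero]
    intro U hU
    obtain ⟨F, hF⟩ := precompact hA (U := U) hU
    refine ⟨(show Set (Additive A) from (F : Set A)), F.finite_toSet, fun x _ => ?_⟩
    obtain ⟨g, hg, hx⟩ := hF x
    exact mem_biUnion hg hx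
  have hcomp : CompactSpace (UniformSpace.Completion (Additive A)) := by
    rw [← isCompact_univ_iff, isCompact_iff_totallyBounded_isComplete]
    refine ⟨?_, isComplete_univ⟩
    have h1 : TotallyBounded (Set.range
        ((↑) : Additive A → UniformSpace.Completion (Additive A))) := by
      rw [← Set.image_univ]
      exact htb.image (UniformSpace.Completion.uniformContinuous_coe _)
    have h2 := h1.closure
    rwa [UniformSpace.Completion.denseRange_coe.closure_range] at h2
  haveI : CompactSpace (Multiplicative (UniformSpace.Completion (Additive A))) :=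
    inferInstanceAs (CompactSpace (UniformSpace.Completion (Additive A)))
  haveI : T2Space (Multiplicative (UniformSpace.Completion (Additive A))) :=
    inferInstanceAs (T2Space (UniformSpace.Completion (Additive A)))
  let ι : A → Multiplicative (UniformSpace.Completion (Additive A)) := fun x =>
    Multiplicative.ofAdd ((Additive.ofMul x : Additive A) : UniformSpace.Completion (Additive A))
  have hι1 : ι 1 = 1 := by
    show Multiplicative.ofAdd (((0 : Additive A) : UniformSpace.Completion (Additive A))) = 1
    rw [UniformSpace.Completion.coe_zero]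
    rfl
  have hιmul : ∀ x y, ι (x * y) = ι x * ι y := by
    intro x y
    show Multiplicative.ofAdd (((Additive.ofMul x + Additive.ofMul y : Additive A) :
      UniformSpace.Completion (Additive A))) = _
    rw [UniformSpace.Completion.coe_add]
    rfl
  have hιi : IsInducing ι :=
    (UniformSpace.Completion.isUniformInducing_coe (Additive A)).isInducing
  -- characters of the completion
  let K := Multiplicative (UniformSpace.Completion (Additive A))
  have hK : IsInducing (ev (fun χ : (K →ₜ* Circle) => χ)) := by
    have hinj : Function.Injective (ev (fun χ : (K →ₜ* Circle) => χ)) := by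
      rw [injective_iff_map_eq_one]
      intro a ha
      by_contra hne
      obtain ⟨χ, hχ⟩ := Pool.LatH472.chars a hne
      exact hχ (congrFun ha χ)
    exact ((ev_continuous _).isClosedEmbedding hinj).isInducing
  have hcomp2 : IsInducing (fun a : A => ev (fun χ : (K →ₜ* Circle) => χ) (ι a)) := hK.comp hιi
  let c : (K →ₜ* Circle) → (A →ₜ* Circle) := fun χ =>
    ⟨⟨⟨fun x => χ (ι x), by rw [hι1]; exact map_one χ⟩, fun x y => by
      show χ (ι (x * y)) = χ (ι x) * χ (ι y)
      rw [hιmul]
      exact map_mul χ _ _⟩, χ.continuous_toFun.comp hιi.continuous⟩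
  refine IsInducing.of_comp (ev_continuous _)
    (g := fun (g : (A →ₜ* Circle) → Circle) (χ : K →ₜ* Circle) => g (c χ)) ?_ ?_
  · exact continuous_pi fun χ => continuous_apply _
  · exact hcomp2

theorem weight_le_chars [T2Space A] (hA : OmegaBounded A) :
    weight A ≤ max #(A →ₜ* Circle) ℵ₀ :=
  weight_le_of_inducing _ (ev_inducing_all hA)

/-- characters separate points -/
theorem exists_char_ne [T2Space A] (hA : OmegaBounded A) {x y : A} (h : x ≠ y) :
    ∃ χ : A →ₜ* Circle, χ x ≠ χ y := by
  by_contra hcon
  push Not at hcon
  exact h ((ev_inducing_all hA).injective (funext fun χ => hcon χ))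

end

end Pool.Agent.H342SG
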