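import Pool.Agent.H342SG.Cont

/-!
# From thin families of sets to omega-bounded groups of large weight (seat helper342)
-/

set_option autoImplicit false
set_option linter.style.haveILetI false

namespace Pool.Agent.H342SG

open Cardinal Topology Set Filter
open scoped Pointwise

/-- the traces of a family of sets on a set `a` -/
def traces {S : Type} (F : Set (Set S)) (a : Set S) : Set (Set S) := (fun f => f ∩ a) '' F

/-- there is a family of `κ⁺` subsets of a set with `κ` elements such that for every countable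
set `a` the number `τ` of traces on `a` satisfies `2 ^ τ ≤ κ` -/
def Thin (κ : Cardinal.{0}) : Prop :=
  ∃ (S : Type) (F : Set (Set S)), #S = κ ∧ #F = Order.succ κ ∧
    ∀ a : Set S, a.Countable → 2 ^ #(traces F a) ≤ κ

/-- a subgroup of a power of the circle with many different coordinates -/
theorem bad_of_coords {I : Type} {κ : Cardinal.{0}} (G : Subgroup (I → Circle))
    (hG : OmegaBounded G) (hI : #I = Order.succ κ) (hκ : ℵ₀ ≤ κ)
    (hsep : ∀ i j, i ≠ j → ∃ x ∈ G, x i ≠ x j) (hc : #G ≤ κ) : Bad (Order.succ κ) := by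
  have hw : weight G = Order.succ κ := by
    apply le_antisymm
    · refine (weight_le_of_inducing (Subtype.val : G → I → Circle) IsInducing.subtypeVal).trans ?_
      rw [hI]
      exact max_le le_rfl (hκ.trans (Order.le_succ κ))
    · let c : I → (G →ₜ* Circle) := fun i =>
        ⟨⟨⟨fun x => x.1 i, rfl⟩, fun x y => rfl⟩, (continuous_apply i).comp continuous_subtype_val⟩
      have hinj : Function.Injective c := by
        intro i j hij
        by_contra hne
        obtain ⟨x, hx, hx2⟩ := hsep i j hne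
        apply hx2
        have h1 := congrArg (fun χ : G →ₜ* Circle => χ ⟨x, hx⟩) hij
        exact h1
      have h1 : Order.succ κ ≤ max (weight G) ℵ₀ := by
        rw [← hI]
        exact (mk_le_of_injective hinj).trans (mk_chars_le_weight hG)
      rcases le_max_iff.1 h1 with h | h
      · exact h
      · exact absurd (hκ.trans_lt (Order.lt_succ κ)) (not_lt.2 h)
  refine ⟨G, inferInstance, inferInstance, inferInstance, inferInstance, hG, hw, ?_⟩
  intro h
  have h1 := h G (MonoidHom.id G) continuous_id Function.surjective_id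
  rw [hw] at h1
  exact absurd (h1.trans hc) (not_le.2 (Order.lt_succ κ))

theorem trace_mono {S : Type} {f g a b : Set S} (hab : a ⊆ b) (h : f ∩ b = g ∩ b) :
    f ∩ a = g ∩ a := by
  have h5 := congrArg (fun u => u ∩ a) h
  simp only [inter_assoc] at h5
  rwa [inter_eq_self_of_subset_right hab] at h5

/-- the functions on a family of sets which depend only on a countable trace -/
def thinGroup {S : Type} (F : Set (Set S)) : Subgroup (F → Circle) where
  carrier := {x | ∃ a : Set S, a.Countable ∧ ∀ f g : F, f.1 ∩ a = g.1 ∩ a → x f = x g}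
  mul_mem' := by
    rintro x y ⟨a, ha, hxa⟩ ⟨b, hb, hyb⟩
    refine ⟨a ∪ b, ha.union hb, fun f g h => ?_⟩
    have h1 : f.1 ∩ a = g.1 ∩ a := trace_mono subset_union_left h
    have h2 : f.1 ∩ b = g.1 ∩ b := trace_mono subset_union_right h
    show x f * y f = x g * y g
    rw [hxa f g h1, hyb f g h2]
  one_mem' := ⟨∅, countable_empty, fun _ _ _ => rfl⟩
  inv_mem' := by
    rintro x ⟨a, ha, hxa⟩
    refine ⟨a, ha, fun f g h => ?_⟩
    show (x f)⁻¹ = (x g)⁻¹
    rw [hxa f g h]

theorem mem_thinGroup {S : Type} {F : Set (Set S)} {x : F → Circle} :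
    x ∈ thinGroup F ↔ ∃ a : Set S, a.Countable ∧ ∀ f g : F, f.1 ∩ a = g.1 ∩ a → x f = x g :=
  Iff.rfl

theorem thinGroup_omegaBounded {S : Type} (F : Set (Set S)) : OmegaBounded (thinGroup F) := by
  intro T hT
  have h1 : ∀ t : thinGroup F, ∃ a : Set S, a.Countable ∧
      ∀ f g : F, f.1 ∩ a = g.1 ∩ a → t.1 f = t.1 g := fun t => t.2
  choose a ha hta using h1
  let A : Set S := ⋃ t ∈ T, a t
  have hA : A.Countable := hT.biUnion fun t _ => ha t
  let Z : Set (F → Circle) := {x | ∀ f g : F, f.1 ∩ A = g.1 ∩ A → x f = x g}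
  have hZc : IsClosed Z := by
    have h2 : Z = ⋂ (f : F) (g : F) (_ : f.1 ∩ A = g.1 ∩ A), {x : F → Circle | x f = x g} := by
      ext x
      simp only [Z, mem_ofPred_eq, mem_iInter]
    rw [h2]
    exact isClosed_iInter fun f => isClosed_iInter fun g => isClosed_iInter fun _ =>
      isClosed_eq (continuous_apply f) (continuous_apply g)
  have hZ : IsCompact ((Subtype.val : thinGroup F → F → Circle) ⁻¹' Z) := by
    have h3 : Z ⊆ Set.range (Subtype.val : thinGroup F → F → Circle) := by
      intro x hx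
      exact ⟨⟨x, A, hA, hx⟩, rfl⟩
    exact (IsInducing.subtypeVal.isCompact_preimage_iff h3).2 hZc.isCompact
  refine hZ.of_isClosed_subset isClosed_closure ?_
  refine closure_minimal ?_ (hZc.preimage continuous_subtype_val)
  intro t ht f g hfg
  refine hta t f g ?_
  exact trace_mono (subset_biUnion_of_mem (u := fun t => a t) ht) hfg

theorem thinGroup_sep {S : Type} (F : Set (Set S)) (f g : F) (hfg : f ≠ g) :
    ∃ x ∈ thinGroup F, x f ≠ x g := by
  classical
  have h1 : f.1 ≠ g.1 := fun h => hfg (Subtype.ext h)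
  obtain ⟨s, hs⟩ : ∃ s, ¬ (s ∈ f.1 ↔ s ∈ g.1) := by
    by_contra hcon
    push Not at hcon
    exact h1 (Set.ext hcon)
  obtain ⟨z, hz⟩ : ∃ z : Circle, z ≠ 1 := by
    refine ⟨Circle.exp Real.pi, fun h => ?_⟩
    have h1 := congrArg (fun w : Circle => (w : ℂ)) h
    simp only [Circle.coe_exp, Complex.exp_pi_mul_I, Circle.coe_one] at h1
    norm_num at h1
  refine ⟨fun h => if s ∈ h.1 then z else 1, ⟨{s}, countable_singleton s, ?_⟩, ?_⟩
  · intro f g h
    have h2 : s ∈ f.1 ↔ s ∈ g.1 := by
      have h3 := Set.ext_iff.1 h s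
      simpa using h3
    simp only [h2]
  · by_cases h3 : s ∈ f.1
    · have h4 : s ∉ g.1 := fun h5 => hs ⟨fun _ => h5, fun _ => h3⟩
      simp only [h3, h4, if_true, if_false]
      exact hz
    · have h4 : s ∈ g.1 := by
        by_contra h5
        exact hs ⟨fun h => absurd h h3, fun h => absurd h h5⟩
      simp only [h3, h4, if_true, if_false]
      exact hz.symm

theorem mk_circle_le : #Circle ≤ 𝔠 := by
  have h : Function.Injective (fun z : Circle => (z : ℂ)) := Subtype.val_injective
  have h1 := mk_le_of_injective h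
  rwa [Cardinal.mk_complex] at h1

theorem mk_thinGroup_le {S : Type} (F : Set (Set S)) {κ : Cardinal.{0}} (hS : #S = κ)
    (hκ : κ ^ ℵ₀ = κ) (hinf : ℵ₀ ≤ κ) (h : ∀ a : Set S, a.Countable → 2 ^ #(traces F a) ≤ κ) :
    #(thinGroup F) ≤ κ := by
  classical
  let Φ : (Σ s : ℕ → S, (traces F (Set.range s) → Circle)) → (F → Circle) := fun p f =>
    p.2 ⟨f.1 ∩ Set.range p.1, f.1, f.2, rfl⟩
  have hcov : (thinGroup F : Set (F → Circle)) ⊆ Set.range Φ := by
    rintro x ⟨a, ha, hxa⟩
    have hSne : Nonempty S := by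
      rw [← mk_ne_zero_iff, hS]
      exact (aleph0_pos.trans_le hinf).ne'
    obtain ⟨s0⟩ := hSne
    obtain ⟨s, hs⟩ : ∃ s : ℕ → S, Set.range s = a ∪ {s0} := by
      obtain ⟨s, hs⟩ := (ha.union (countable_singleton s0)).exists_eq_range ⟨s0, Or.inr rfl⟩
      exact ⟨s, hs.symm⟩
    have hsub : a ⊆ Set.range s := by
      rw [hs]
      exact subset_union_left
    have hx2 : ∀ f g : F, f.1 ∩ Set.range s = g.1 ∩ Set.range s → x f = x g := by
      intro f g hfg
      exact hxa f g (trace_mono hsub hfg)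
    have hφ : ∀ b : traces F (Set.range s), ∃ f : F, f.1 ∩ Set.range s = b.1 := by
      rintro ⟨b, f, hf, rfl⟩
      exact ⟨⟨f, hf⟩, rfl⟩
    choose φ hφ using hφ
    refine ⟨⟨s, fun b => x (φ b)⟩, ?_⟩
    funext f
    exact hx2 _ _ (hφ _)
  have h1 : #(thinGroup F) ≤ #(Σ s : ℕ → S, (traces F (Set.range s) → Circle)) :=
    (mk_le_mk_of_subset hcov).trans mk_range_le
  refine h1.trans ?_
  rw [mk_sigma]
  have h2 : ∀ s : ℕ → S, #(traces F (Set.range s) → Circle) ≤ κ := by
    intro s
    have h3 : #(traces F (Set.range s) → Circle) = #Circle ^ #(traces F (Set.range s)) := by simp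
    rw [h3]
    calc #Circle ^ #(traces F (Set.range s)) ≤ 𝔠 ^ #(traces F (Set.range s)) :=
          Cardinal.power_le_power_right mk_circle_le
      _ = (2 ^ #(traces F (Set.range s))) ^ ℵ₀ := by
          rw [← two_power_aleph0, ← power_mul, ← power_mul, mul_comm]
      _ ≤ κ ^ ℵ₀ := Cardinal.power_le_power_right (h _ (countable_range s))
      _ = κ := hκ
  calc Cardinal.sum (fun s : ℕ → S => #(traces F (Set.range s) → Circle)) ≤
      Cardinal.sum (fun _ : ℕ → S => κ) := Cardinal.sum_le_sum _ _ h2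
    _ = #(ℕ → S) * κ := by simp
    _ = κ ^ ℵ₀ * κ := by
        have : #(ℕ → S) = κ ^ ℵ₀ := by rw [← hS]; simp
        rw [this]
    _ = κ := by rw [hκ, mul_eq_self hinf]

end Pool.Agent.H342SG
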