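import Pool.Agent.H342SG.Tree

/-!
# Infinite omega-bounded abelian groups have at least continuum many elements (seat helper342)
-/

set_option autoImplicit false
set_option linter.style.haveILetI false

namespace Pool.Agent.H342SG

open Cardinal Topology Set Filter
open scoped Pointwise

theorem OmegaBounded.map {X Y : Type} [TopologicalSpace X] [TopologicalSpace Y] [T2Space Y]
    (hX : OmegaBounded X) {f : X → Y} (hf : Continuous f) (hs : Function.Surjective f) :
    OmegaBounded Y := by
  intro S hS
  choose g hg using hs
  have h1 := (hX (g '' S) (hS.image g)).image hf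
  refine h1.of_isClosed_subset isClosed_closure ?_
  refine closure_minimal ?_ h1.isClosed
  intro y hy
  exact ⟨g y, subset_closure ⟨y, hy, rfl⟩, hg y⟩

/-- a countable compact Hausdorff group is finite -/
theorem finite_of_countable (C : Type) [Group C] [TopologicalSpace C] [IsTopologicalGroup C]
    [CompactSpace C] [T2Space C] [Countable C] : Finite C := by
  have h1 : (⋃ x : C, ({x} : Set C)) = Set.univ := by
    ext x
    simp
  obtain ⟨x, hx⟩ := nonempty_interior_of_iUnion_of_closed (fun x : C => isClosed_singleton) h1
  have h2 : IsOpen ({x} : Set C) := by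
    have h3 : interior ({x} : Set C) = {x} := by
      refine subset_antisymm interior_subset ?_
      obtain ⟨y, hy⟩ := hx
      have h4 : y = x := mem_singleton_iff.1 (interior_subset hy)
      intro z hz
      rw [mem_singleton_iff] at hz
      subst hz
      subst h4
      exact hy
    rw [← h3]
    exact isOpen_interior
  have h3 : IsOpen ({1} : Set C) := by
    have h4 : (fun y : C => x * y) ⁻¹' {x} = {1} := by
      ext y
      simp
    rw [← h4]
    exact h2.preimage (continuous_const_mul x)
  haveI : DiscreteTopology C := discreteTopology_of_isOpen_singleton_one h3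
  exact finite_of_compact_of_discrete

theorem continuum_le {A : Type} [CommGroup A] [TopologicalSpace A] [IsTopologicalGroup A]
    [T2Space A] [Infinite A] (hA : OmegaBounded A) : 𝔠 ≤ #A := by
  classical
  let x : ℕ ↪ A := Infinite.natEmbedding A
  have h1 : ∀ p : ℕ × ℕ, ∃ χ : A →ₜ* Circle, p.1 ≠ p.2 → χ (x p.1) ≠ χ (x p.2) := by
    intro p
    by_cases h : p.1 = p.2
    · exact ⟨1, fun h' => absurd h h'⟩
    · obtain ⟨χ, hχ⟩ := exists_char_ne hA (x.injective.ne h)
      exact ⟨χ, fun _ => hχ⟩
  choose c hc using h1
  let C : Subgroup (ℕ × ℕ → Circle) := (ev c).range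
  let g : A → C := fun a => ⟨ev c a, a, rfl⟩
  have hg : Continuous g := (ev_continuous c).subtype_mk _
  have hgs : Function.Surjective g := by
    rintro ⟨_, a, rfl⟩
    exact ⟨a, rfl⟩
  have hC : OmegaBounded C := hA.map hg hgs
  haveI hP1 : TopologicalSpace.IsCompletelyMetrizableSpace Circle := inferInstance
  haveI hP2 : TopologicalSpace.IsCompletelyMetrizableSpace (ℕ × ℕ → Circle) := inferInstance
  haveI hP3 : PolishSpace (ℕ × ℕ → Circle) := inferInstance
  haveI hsc : SecondCountableTopology C :=
    TopologicalSpace.Subtype.secondCountableTopology (C : Set (ℕ × ℕ → Circle))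
  have hCc : CompactSpace C := by
    obtain ⟨D, hD1, hD2⟩ := TopologicalSpace.exists_countable_dense C
    have := hC D hD1
    rw [hD2.closure_eq] at this
    exact ⟨this⟩
  have hCinf : Infinite C := by
    refine Infinite.of_injective (fun n : ℕ => g (x n)) ?_
    intro m n hmn
    by_contra hne
    have h2 : ev c (x m) = ev c (x n) := congrArg Subtype.val hmn
    exact hc (m, n) hne (congrFun h2 (m, n))
  have hunc : ¬ ((C : Set (ℕ × ℕ → Circle)).Countable) := by
    intro h
    haveI : Countable C := h.to_subtype
    exact not_finite_iff_infinite.2 hCinf (finite_of_countable C)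
  have hcl : IsClosed (C : Set (ℕ × ℕ → Circle)) :=
    (isCompact_iff_compactSpace.2 hCc).isClosed
  obtain ⟨f, hf1, -, hf2⟩ := hcl.exists_nat_bool_injection_of_not_countable hunc
  have h3 : #(ℕ → Bool) ≤ #C := by
    refine mk_le_of_injective (f := fun s => (⟨f s, hf1 (mem_range_self s)⟩ : C)) ?_
    intro s t hst
    exact hf2 (congrArg Subtype.val hst)
  have h4 : #(ℕ → Bool) = 𝔠 := by simp
  rw [← h4]
  exact h3.trans (mk_le_of_surjective hgs)

/-- a finite Hausdorff space -/
theorem weight_le_of_finite (A : Type) [TopologicalSpace A] [T2Space A] [Finite A] :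
    weight A ≤ #A := weight_le_mk_of_discrete A

/-- the character group of a quotient -/
theorem mk_chars_mono {A B : Type} [CommGroup A] [TopologicalSpace A] [CommGroup B]
    [TopologicalSpace B] (f : A →* B) (hf : Continuous f) (hs : Function.Surjective f) :
    #(B →ₜ* Circle) ≤ #(A →ₜ* Circle) := by
  refine mk_le_of_injective (f := fun ψ : B →ₜ* Circle =>
    (⟨ψ.toMonoidHom.comp f, ψ.continuous_toFun.comp hf⟩ : A →ₜ* Circle)) ?_
  intro ψ φ h
  apply ContinuousMonoidHom.ext
  intro b
  obtain ⟨a, rfl⟩ := hs b
  exact congrArg (fun χ : A →ₜ* Circle => χ a) h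

end Pool.Agent.H342SG
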