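import Pool.Agent.H342SG.Char

/-!
# Counting the characters (seat helper342)
-/

set_option autoImplicit false
set_option linter.style.haveILetI false

namespace Pool.Agent.H342SG

open Cardinal Topology Set Filter
open scoped Pointwise

theorem le_of_nhds_one_le {G : Type} [Group G] (t t' : TopologicalSpace G)
    (ht : @IsTopologicalGroup G t _) (ht' : @IsTopologicalGroup G t' _)
    (h : @nhds G t 1 ≤ @nhds G t' 1) : t ≤ t' := by
  refine le_of_nhds_le_nhds fun x => ?_
  have h1 : Filter.map (x * ·) (@nhds G t 1) = @nhds G t x := by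
    letI := t
    haveI := ht
    exact map_mul_left_nhds_one x
  have h2 : Filter.map (x * ·) (@nhds G t' 1) = @nhds G t' x := by
    letI := t'
    haveI := ht'
    exact map_mul_left_nhds_one x
  rw [← h1, ← h2]
  exact Filter.map_mono h

theorem mk_finsupp_int_le (J : Type) : #(J →₀ ℤ) ≤ max #J ℵ₀ := by
  classical
  have h : Function.Injective (fun h : J →₀ ℤ => (h.graph : Finset (J × ℤ))) :=
    Finsupp.graph_injective J ℤ
  refine (mk_le_of_injective h).trans ?_
  rcases finite_or_infinite J with hJ | hJ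
  · haveI : Countable (J × ℤ) := inferInstance
    exact (mk_le_aleph0 (α := Finset (J × ℤ))).trans (le_max_right _ _)
  · haveI : Infinite (J × ℤ) := inferInstance
    rw [mk_finset_of_infinite, mk_prod, lift_id, lift_id, mk_int]
    exact (mul_le_max_of_aleph0_le_left (aleph0_le_mk J))

section
variable {A : Type} [CommGroup A] [tA : TopologicalSpace A]

/-- characters whose topology is induced by a family are few -/
theorem mk_chars_le_of_inducing {J : Type} (c : J → (A →ₜ* Circle)) (hc : IsInducing (ev c)) :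
    #(A →ₜ* Circle) ≤ max #J ℵ₀ := by
  have h := fun ψ => Pool.Agent.Helper69.Dual.exists_prod_of_inducing (ev c) hc ψ
  choose h hh using h
  have hinj : Function.Injective h := by
    intro ψ φ hψφ
    apply ContinuousMonoidHom.ext
    intro a
    rw [hh ψ a, hh φ a, hψφ]
  exact (mk_le_of_injective hinj).trans (mk_finsupp_int_le J)

theorem mk_chars_le_weight [IsTopologicalGroup A] [T2Space A] (hA : OmegaBounded A) :
    #(A →ₜ* Circle) ≤ max (weight A) ℵ₀ := by
  classical
  obtain ⟨B, hB, hBw⟩ := exists_basis A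
  have hind := ev_inducing_all hA
  have key : ∀ U : B, (1 : A) ∈ (U : Set A) → ∃ I : Set (A →ₜ* Circle), I.Finite ∧
      ∃ u : (A →ₜ* Circle) → Set Circle, (∀ χ, u χ ∈ 𝓝 (1 : Circle)) ∧
        ∀ x : A, (∀ χ ∈ I, χ x ∈ u χ) → x ∈ (U : Set A) := by
    intro U hU
    have hW : (U : Set A) ∈ 𝓝 (1 : A) := (hB.isOpen U.2).mem_nhds hU
    rw [hind.nhds_eq_comap, map_one, Filter.mem_comap] at hW
    obtain ⟨t, ht, htW⟩ := hW
    rw [nhds_pi, Filter.mem_pi] at ht
    obtain ⟨I, hI, u, hu, hut⟩ := ht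
    exact ⟨I, hI, u, hu, fun x hx => htW (hut fun χ hχ => hx χ hχ)⟩
  let I : B → Set (A →ₜ* Circle) := fun U =>
    if h : (1 : A) ∈ (U : Set A) then (key U h).choose else ∅
  have hIfin : ∀ U, (I U).Finite := by
    intro U
    by_cases h : (1 : A) ∈ (U : Set A)
    · simp only [I, dif_pos h]
      exact (key U h).choose_spec.1
    · simp only [I, dif_neg h]
      exact finite_empty
  let J : Set (A →ₜ* Circle) := ⋃ U, I U
  have hJ : #J ≤ max (weight A) ℵ₀ := by
    refine (mk_iUnion_le _).trans ?_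
    have h3 : (⨆ U : B, #(I U)) ≤ ℵ₀ := ciSup_le' fun U => by
      haveI := (hIfin U).to_subtype
      exact mk_le_aleph0
    calc #B * (⨆ U : B, #(I U)) ≤ #B * ℵ₀ := mul_le_mul_right h3 _
      _ ≤ max #B ℵ₀ := by
          refine (mul_le_max _ _).trans ?_
          simp
      _ = _ := by rw [hBw]
  have hJind : IsInducing (ev (fun χ : J => (χ : A →ₜ* Circle))) := by
    constructor
    refine le_antisymm (ev_continuous _).le_induced ?_
    refine le_of_nhds_one_le _ _ (topologicalGroup_induced _) inferInstance ?_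
    rw [nhds_induced]
    intro W hW
    obtain ⟨U, hUB, h1U, hUW⟩ := hB.mem_nhds_iff.1 hW
    obtain ⟨hIf, u, hu, hx⟩ := (key ⟨U, hUB⟩ h1U).choose_spec
    have hIeq : I ⟨U, hUB⟩ = (key ⟨U, hUB⟩ h1U).choose := dif_pos h1U
    rw [← hIeq] at hx
    rw [Filter.mem_comap]
    refine ⟨{g : J → Circle | ∀ χ : J, (χ : A →ₜ* Circle) ∈ I ⟨U, hUB⟩ → g χ ∈ u χ}, ?_, ?_⟩
    · rw [map_one, nhds_pi, Filter.mem_pi]
      refine ⟨{χ : J | (χ : A →ₜ* Circle) ∈ I ⟨U, hUB⟩},
        (hIfin _).preimage Subtype.val_injective.injOn, fun χ => u χ, fun χ => hu χ, ?_⟩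
      intro g hg χ hχ
      exact hg χ hχ
    · intro x hx'
      exact hUW (hx x fun χ hχ => hx' ⟨χ, mem_iUnion.2 ⟨_, hχ⟩⟩ hχ)
  refine (mk_chars_le_of_inducing _ hJind).trans ?_
  exact max_le hJ (le_max_right _ _)

omit [CommGroup A] in
theorem exists_open_of_factor [CompactSpace A] {Z Y : Type} [TopologicalSpace Z] [T2Space Z]
    [TopologicalSpace Y] {E : A → Z} (hE : Continuous E) {ψ : A → Y} (hψ : Continuous ψ)
    (hf : ∀ x y, E x = E y → ψ x = ψ y) (O : Set Y) (hO : IsOpen O) :
    ∃ V : Set Z, IsOpen V ∧ E ⁻¹' V = ψ ⁻¹' O := by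
  have hcl : IsClosed (E '' (ψ ⁻¹' Oᶜ)) :=
    ((hO.isClosed_compl.preimage hψ).isCompact.image hE).isClosed
  refine ⟨(E '' (ψ ⁻¹' Oᶜ))ᶜ, hcl.isOpen_compl, ?_⟩
  ext x
  constructor
  · intro hx
    by_contra hxO
    exact hx ⟨x, hxO, rfl⟩
  · rintro hx ⟨y, hy, hyx⟩
    apply hy
    show ψ y ∈ O
    rw [hf y x hyx]
    exact hx

theorem exists_prod_of_trivial [CompactSpace A] {J : Type} (c : J → (A →ₜ* Circle))
    (ψ : A →ₜ* Circle) (hψ : ∀ x : A, (∀ j, c j x = 1) → ψ x = 1) :
    ∃ h : J →₀ ℤ, ∀ a, ψ a = h.prod (fun i n => (ev c a i) ^ n) := by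
  have hfac : ∀ x y, ev c x = ev c y → ψ x = ψ y := by
    intro y x hyx
    have h2 : ψ (y / x) = 1 := by
      refine hψ _ fun j => ?_
      have h3 : c j y = c j x := congrFun hyx j
      rw [map_div, h3, div_self']
    rwa [map_div, div_eq_one] at h2
  have hop := exists_open_of_factor (ev_continuous c) ψ.continuous_toFun hfac
  have hcont : @Continuous A Circle (TopologicalSpace.induced (ev c) inferInstance) _ ψ := by
    refine @Continuous.mk A Circle (TopologicalSpace.induced (ev c) inferInstance) _ ψ ?_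
    intro O hO
    exact hop O hO
  exact @Pool.Agent.Helper69.Dual.exists_prod_of_inducing A J _
    (TopologicalSpace.induced (ev c) inferInstance) (ev c)
    (@IsInducing.mk A (J → Circle) (TopologicalSpace.induced (ev c) inferInstance) _ _ rfl)
    (@ContinuousMonoidHom.mk A Circle _ _ (TopologicalSpace.induced (ev c) inferInstance) _
      ψ.toMonoidHom hcont)

/-- the characters which are trivial on the common kernel of a family -/
theorem mk_trivial_chars_le [CompactSpace A] {J : Type} (c : J → (A →ₜ* Circle)) :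
    #{ψ : A →ₜ* Circle | ∀ x : A, (∀ j, c j x = 1) → ψ x = 1} ≤ max #J ℵ₀ := by
  classical
  have key : ∀ ψ : {ψ : A →ₜ* Circle | ∀ x : A, (∀ j, c j x = 1) → ψ x = 1},
      ∃ h : J →₀ ℤ, ∀ a, (ψ : A →ₜ* Circle) a = h.prod (fun i n => (ev c a i) ^ n) :=
    fun ψ => exists_prod_of_trivial c ψ.1 ψ.2
  choose h hh using key
  have hinj : Function.Injective h := by
    intro ψ φ hψφ
    apply Subtype.ext
    apply ContinuousMonoidHom.ext
    intro a
    rw [hh ψ a, hh φ a, hψφ]
  exact (mk_le_of_injective hinj).trans (mk_finsupp_int_le J)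

end

end Pool.Agent.H342SG
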