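import Pool.Agent.H342SG.Back

/-!
# The value of the least bad weight (seat helper342)
-/

set_option autoImplicit false
set_option linter.style.haveILetI false

namespace Pool.Agent.H342SG

open Cardinal Topology Set Filter
open scoped Pointwise

/-- there is a family of `κ⁺` subsets of a set with `κ` elements which has only countably many
traces on each countable set -/
def KurepaFamily (κ : Cardinal.{0}) : Prop :=
  ∃ (S : Type) (F : Set (Set S)), #S = κ ∧ #F = Order.succ κ ∧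
    ∀ a : Set S, a.Countable → (traces F a).Countable

/-- Kurepa's hypothesis, in terms of a Kurepa family: there is a family of at least `ℵ₂` subsets
of `ω₁` which has only countably many traces on each proper initial segment of `ω₁` -/
def KurepaHypothesis : Prop :=
  ∃ F : Set (Set (ℵ_ 1 : Cardinal.{0}).ord.ToType), ℵ_ 2 ≤ #F ∧
    ∀ α : (ℵ_ 1 : Cardinal.{0}).ord.ToType, (traces F (Iio α)).Countable

theorem aleph_two : (ℵ_ 2 : Cardinal.{0}) = Order.succ (ℵ_ 1) := by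
  rw [Cardinal.succ_aleph]
  congr 1
  exact one_add_one_eq_two.symm

theorem aleph_three : (ℵ_ 3 : Cardinal.{0}) = Order.succ (ℵ_ 2) := by
  rw [Cardinal.succ_aleph]
  congr 1

theorem countable_of_two_power_lt {α : Type} (h : 2 ^ #α < (2 : Cardinal.{0}) ^ (ℵ_ 1 : Cardinal.{0})) :
    #α ≤ ℵ₀ := by
  by_contra hcon
  have h1 : ℵ_ 1 ≤ #α := by
    rw [← succ_aleph0]
    exact Order.succ_le_of_lt (not_le.1 hcon)
  exact absurd (power_le_power_left two_ne_zero h1) (not_le.2 h)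

theorem two_power_le_of_countable {α : Type} (h : #α ≤ ℵ₀) : (2 : Cardinal.{0}) ^ #α ≤ 𝔠 := by
  rw [← two_power_aleph0]
  exact power_le_power_left two_ne_zero h

theorem thin_iff_kurepaFamily (h : 𝔠 < (2 : Cardinal.{0}) ^ (ℵ_ 1 : Cardinal.{0})) :
    Thin 𝔠 ↔ KurepaFamily 𝔠 := by
  constructor
  · rintro ⟨S, F, hS, hF, hT⟩
    exact ⟨S, F, hS, hF, fun a ha => le_aleph0_iff_set_countable.1
      (countable_of_two_power_lt ((hT a ha).trans_lt h))⟩
  · rintro ⟨S, F, hS, hF, hT⟩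
    exact ⟨S, F, hS, hF, fun a ha => two_power_le_of_countable
      (le_aleph0_iff_set_countable.2 (hT a ha))⟩

theorem traces_countable_of_subset {S : Type} {F G : Set (Set S)} {a b : Set S} (hFG : F ⊆ G)
    (hab : a ⊆ b) (h : (traces G b).Countable) : (traces F a).Countable := by
  refine (h.image (fun u => u ∩ a)).mono ?_
  rintro _ ⟨f, hf, rfl⟩
  refine ⟨f ∩ b, ⟨f, hFG hf, rfl⟩, ?_⟩
  show f ∩ b ∩ a = f ∩ a
  rw [inter_assoc, inter_eq_self_of_subset_right hab]

theorem Iio_countable (α : (ℵ_ 1 : Cardinal.{0}).ord.ToType) : (Iio α).Countable := by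
  rw [← le_aleph0_iff_set_countable, ← Order.lt_succ_iff, succ_aleph0]
  have h := Cardinal.mk_Iio_lt α (by rw [Cardinal.mk_ord_toType, Ordinal.type_toType])
  rwa [Cardinal.mk_ord_toType] at h

theorem exists_bound (a : Set (ℵ_ 1 : Cardinal.{0}).ord.ToType) (ha : a.Countable) :
    ∃ α, a ⊆ Iio α := by
  by_contra hcon
  push Not at hcon
  have h1 : (Set.univ : Set (ℵ_ 1 : Cardinal.{0}).ord.ToType) ⊆ ⋃ x ∈ a, (insert x (Iio x)) := by
    intro α _
    obtain ⟨x, hx, hxα⟩ := not_subset.1 (hcon α)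
    refine mem_iUnion₂.2 ⟨x, hx, ?_⟩
    have h2 : α ≤ x := not_lt.1 hxα
    rcases h2.eq_or_lt with h3 | h3
    · exact Or.inl h3
    · exact Or.inr h3
  have h2 : (Set.univ : Set (ℵ_ 1 : Cardinal.{0}).ord.ToType).Countable :=
    (ha.biUnion fun x _ => (Iio_countable x).insert x).mono h1
  rw [← le_aleph0_iff_set_countable, mk_univ, Cardinal.mk_ord_toType] at h2
  exact absurd aleph0_lt_aleph_one (not_lt.2 h2)

theorem kurepaFamily_iff : KurepaFamily (ℵ_ 1) ↔ KurepaHypothesis := by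
  constructor
  · rintro ⟨S, F, hS, hF, hT⟩
    have h1 : #S = #(ℵ_ 1 : Cardinal.{0}).ord.ToType := by
      rw [hS, Cardinal.mk_ord_toType]
    obtain ⟨e⟩ := Cardinal.eq.1 h1
    have hinj : Function.Injective (fun f : Set S => e '' f) := e.injective.image_injective
    refine ⟨(fun f => e '' f) '' F, ?_, ?_⟩
    · rw [mk_image_eq hinj, hF, aleph_two]
    · intro α
      have h2 : (e ⁻¹' (Iio α)).Countable := (Iio_countable α).preimage e.injective
      refine ((hT _ h2).image (fun u => e '' u)).mono ?_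
      rintro _ ⟨_, ⟨f, hf, rfl⟩, rfl⟩
      refine ⟨f ∩ e ⁻¹' (Iio α), ⟨f, hf, rfl⟩, ?_⟩
      exact image_inter_preimage e f (Iio α)
  · rintro ⟨F, hF, hT⟩
    obtain ⟨G, hG, hG2⟩ := le_mk_iff_exists_subset.1 hF
    refine ⟨_, G, Cardinal.mk_ord_toType _, by rw [hG2, aleph_two], ?_⟩
    intro a ha
    obtain ⟨α, hα⟩ := exists_bound a ha
    exact traces_countable_of_subset hG hα (hT α)

theorem continuum_power : (𝔠 : Cardinal.{0}) ^ ℵ₀ = 𝔠 := continuum_power_aleph0

theorem sigma_eq_iff : sigma = Order.succ 𝔠 ↔ Thin 𝔠 := by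
  constructor
  · intro h
    obtain ⟨κ, hκ, hT, hs⟩ := sigma_eq
    rw [hs] at h
    have h1 : κ = 𝔠 := Order.succ_eq_succ_iff.1 h
    rwa [← h1]
  · intro h
    refine le_antisymm (sigma_le (bad_of_thin aleph0_le_continuum continuum_power h)) ?_
    obtain ⟨κ, hκ, -, hs⟩ := sigma_eq
    rw [hs]
    exact Order.succ_le_succ_iff.2 hκ

theorem sigma_upper : sigma ≤ Order.succ (2 ^ (𝔠 : Cardinal.{0})) :=
  sigma_le (bad_of_thin (aleph0_le_continuum.trans (cantor _).le) two_power_continuum_power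
    thin_two_power_continuum)

theorem sigma_eq' : ∃ κ : Cardinal.{0}, 𝔠 ≤ κ ∧ κ ≤ 2 ^ (𝔠 : Cardinal.{0}) ∧ Thin κ ∧
    sigma = Order.succ κ := by
  obtain ⟨κ, hκ, hT, hs⟩ := sigma_eq
  refine ⟨κ, hκ, ?_, hT, hs⟩
  have h1 := sigma_upper
  rw [hs] at h1
  exact Order.succ_le_succ_iff.1 h1

theorem sigma_of_not_thin (h : (2 : Cardinal.{0}) ^ (𝔠 : Cardinal.{0}) = Order.succ 𝔠)
    (hT : ¬ Thin 𝔠) : sigma = Order.succ (Order.succ 𝔠) := by
  obtain ⟨κ, hκ1, hκ2, hκT, hs⟩ := sigma_eq'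
  rw [hs]
  congr 1
  rw [h] at hκ2
  refine le_antisymm hκ2 (Order.succ_le_of_lt (lt_of_le_of_ne hκ1 ?_))
  rintro rfl
  exact hT hκT

/-- if the cardinals between `𝔠` and `2 ^ 𝔠` are closed under countable powers then the least bad
weight is the successor of the least cardinal which carries a thin family -/
theorem sigma_eq_sInf (h : ∀ κ : Cardinal.{0}, 𝔠 ≤ κ → κ ≤ 2 ^ (𝔠 : Cardinal.{0}) → κ ^ ℵ₀ = κ) :
    sigma = sInf {ν | ∃ κ : Cardinal.{0}, 𝔠 ≤ κ ∧ Thin κ ∧ ν = Order.succ κ} := by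
  apply le_antisymm
  · refine le_csInf ?_ ?_
    · obtain ⟨κ, hκ, hT, hs⟩ := sigma_eq
      exact ⟨_, κ, hκ, hT, rfl⟩
    · rintro _ ⟨κ, hκ, hT, rfl⟩
      rcases le_or_gt κ (2 ^ (𝔠 : Cardinal.{0})) with h1 | h1
      · exact sigma_le (bad_of_thin (aleph0_le_continuum.trans hκ) (h κ hκ h1) hT)
      · exact sigma_upper.trans (Order.succ_le_succ_iff.2 h1.le)
  · obtain ⟨κ, hκ, hT, hs⟩ := sigma_eq
    exact csInf_le' ⟨κ, hκ, hT, hs⟩

end Pool.Agent.H342SG
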