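import Pool.Agent.H342SG.Count

/-!
# Cardinality of compact abelian groups (seat helper342)
-/

set_option autoImplicit false
set_option linter.style.haveILetI false

namespace Pool.Agent.H342SG

open Cardinal Topology Set Filter
open scoped Pointwise

section
variable {K : Type} [CommGroup K] [TopologicalSpace K] [CompactSpace K]

/-- a long sequence of characters, each of which is not trivial on the common kernel of the
previous ones -/
theorem exists_sequence (hΓ : ℵ₀ < #(K →ₜ* Circle)) :
    ∃ (I : Type) (_ : LinearOrder I) (_ : WellFoundedLT I) (χ : I → (K →ₜ* Circle)),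
      #I = #(K →ₜ* Circle) ∧ ∀ i, ∃ x : K, (∀ j, j < i → χ j x = 1) ∧ χ i x ≠ 1 := by
  classical
  let κ := #(K →ₜ* Circle)
  let I := κ.ord.ToType
  have key : ∀ (i : I) (p : ∀ j : I, j < i → (K →ₜ* Circle)),
      ∃ ψ : K →ₜ* Circle, ∃ x : K, (∀ j (hj : j < i), p j hj x = 1) ∧ ψ x ≠ 1 := by
    intro i p
    by_contra hcon
    push Not at hcon
    have h1 := mk_trivial_chars_le (fun j : Iio i => p j.1 j.2)
    have h2 : {ψ : K →ₜ* Circle | ∀ x : K, (∀ j : Iio i, p j.1 j.2 x = 1) → ψ x = 1} = Set.univ := by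
      refine eq_univ_of_forall fun ψ => ?_
      intro x hx
      exact hcon ψ x fun j hj => hx ⟨j, hj⟩
    rw [h2, mk_univ] at h1
    have h3 : #(Iio i) < κ := Cardinal.mk_Iio_toType_ord_lt i
    exact absurd h1 (not_le.2 (max_lt h3 hΓ))
  choose f hf using key
  let χ : I → (K →ₜ* Circle) := wellFounded_lt.fix f
  have hχ : ∀ i, χ i = f i (fun j _ => χ j) := fun i => wellFounded_lt.fix_eq f i
  refine ⟨I, inferInstance, inferInstance, χ, ?_, ?_⟩
  · rw [Cardinal.mk_toType, Cardinal.card_ord]
  · intro i
    obtain ⟨x, hx1, hx2⟩ := hf i (fun j _ => χ j)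
    exact ⟨x, hx1, by rw [hχ i]; exact hx2⟩

/-- an infinite system of equations which can be solved up to every index can be solved -/
theorem solve {I : Type} [LinearOrder I] (χ : I → (K →ₜ* Circle)) (y : I → Circle) (T : Set I)
    (h : ∀ m ∈ T, ∃ x : K, ∀ j ≤ m, χ j x = y j) : ∃ x : K, ∀ j ∈ T, χ j x = y j := by
  classical
  have h1 := CompactSpace.isCompact_univ (X := K) |>.inter_iInter_nonempty
    (fun j : T => {x : K | χ j x = y j}) (fun j =>
      isClosed_eq (χ j.1).continuous_toFun continuous_const) (by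
      intro t
      rcases t.eq_empty_or_nonempty with rfl | ht
      · exact ⟨1, trivial, by simp⟩
      · obtain ⟨m, hm, hmax⟩ := t.exists_max_image (fun j : T => (j : I)) ht
        obtain ⟨x, hx⟩ := h m.1 m.2
        refine ⟨x, trivial, ?_⟩
        rw [mem_iInter₂]
        intro j hj
        exact hx j.1 (hmax j hj))
  obtain ⟨x, -, hx⟩ := h1
  rw [mem_iInter] at hx
  exact ⟨x, fun j hj => hx ⟨j, hj⟩⟩

/-- a compact abelian group with `κ` characters, `κ` uncountable, has at least `2 ^ κ` elements -/
theorem two_power_le (hΓ : ℵ₀ < #(K →ₜ* Circle)) : 2 ^ #(K →ₜ* Circle) ≤ #K := by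
  classical
  obtain ⟨I, _, _, χ, hI, hχ⟩ := exists_sequence hΓ
  -- the two branches
  have key : ∀ (i : I) (p : ∀ j : I, j < i → Circle), ∃ c : Bool → Circle,
      (∃ x : K, ∀ j (hj : j < i), χ j x = p j hj) →
        (c true ≠ c false ∧ ∀ b, ∃ x : K, (∀ j (hj : j < i), χ j x = p j hj) ∧ χ i x = c b) := by
    intro i p
    by_cases h : ∃ x : K, ∀ j (hj : j < i), χ j x = p j hj
    · obtain ⟨x, hx⟩ := h
      obtain ⟨z, hz1, hz2⟩ := hχ i
      refine ⟨fun b => if b then χ i (x * z) else χ i x, fun _ => ⟨?_, ?_⟩⟩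
      · simp only [if_true, Bool.false_eq_true, if_false, map_mul]
        intro h
        exact hz2 (mul_eq_left.1 h)
      · intro b
        cases b
        · exact ⟨x, hx, by simp⟩
        · refine ⟨x * z, fun j hj => ?_, by simp⟩
          rw [map_mul, hx j hj, hz1 j hj, mul_one]
    · exact ⟨fun _ => 1, fun h' => absurd h' h⟩
  choose pick hpick using key
  let y : (I → Bool) → I → Circle := fun f => wellFounded_lt.fix (fun i p => pick i p (f i))
  have hy : ∀ f i, y f i = pick i (fun j _ => y f j) (f i) := fun f i =>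
    wellFounded_lt.fix_eq (fun i p => pick i p (f i)) i
  have hreal : ∀ f i, ∃ x : K, ∀ j ≤ i, χ j x = y f j := by
    intro f i
    induction i using WellFoundedLT.induction with
    | _ i ih =>
      have h1 : ∃ x : K, ∀ j (_ : j < i), χ j x = y f j :=
        solve χ (y f) (Iio i) fun m hm => ih m hm
      obtain ⟨x, hx1, hx2⟩ := (hpick i (fun j _ => y f j) h1).2 (f i)
      refine ⟨x, fun j hj => ?_⟩
      rcases hj.lt_or_eq with h | rfl
      · exact hx1 j h
      · rw [hx2, ← hy]
  have htot : ∀ f, ∃ x : K, ∀ j, χ j x = y f j := by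
    intro f
    obtain ⟨x, hx⟩ := solve χ (y f) Set.univ fun m _ => hreal f m
    exact ⟨x, fun j => hx j trivial⟩
  choose X hX using htot
  have hinj : Function.Injective X := by
    intro f g hfg
    have hyy : y f = y g := by
      funext j
      rw [← hX f j, ← hX g j, hfg]
    funext i
    have h1 : ∃ x : K, ∀ j (_ : j < i), χ j x = y f j := ⟨X f, fun j _ => hX f j⟩
    have h2 := (hpick i (fun j _ => y f j) h1).1
    have h3 : pick i (fun j _ => y f j) (f i) = pick i (fun j _ => y f j) (g i) := by
      rw [← hy f i]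
      have h4 := hy g i
      rw [← hyy] at h4
      exact h4
    cases hf : f i <;> cases hg : g i
    · rfl
    · rw [hf, hg] at h3
      exact absurd h3.symm h2
    · rw [hf, hg] at h3
      exact absurd h3 h2
    · rfl
  have h5 := mk_le_of_injective hinj
  have h6 : #(I → Bool) = 2 ^ #I := by simp
  rwa [h6, hI] at h5

end

end Pool.Agent.H342SG
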